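import Pool.Agent.Y271.CO.Cor

/-!
# Hyperinvariant subspaces of `A + κ K` for all `κ` outside of a set of Hausdorff dimension zero

`X` is a complex Banach space, `A` and `K` are operators on `X`, and `K` has finite rank. `U` is an open
set which the spectrum of `A` meets in a null set, and `log⁺ ‖(z - A)⁻¹‖` is integrable on `U` with
respect to the area.

* `HasHyper T` (`Pool/Agent/Y271/CO/Main.lean`): `T` has a closed subspace other than `0` and `X` which
  is invariant under all operators that commute with `T`.
* `weyl A` (`Pool/Agent/Y271/CO/Iso.lean`), the Weyl spectrum of `A`: the points which are in the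
  spectrum of `A + L` for all operators `L` of finite rank. All accumulation points of the spectrum
  which lie in `U` belong to it (`accumulation` below).
* `Thin E` (`Pool/Agent/Y271/CO/Cor.lean`): for some `C` and `ε > 0` the `δ`-neighbourhood of `E` has
  area at most `C δ^ε` for `0 < δ ≤ 1`, that is, the upper Minkowski dimension of `E` is less than two.

The theorem on log-integrable resolvents is `Pool.Agent.W610.HY.Cor.glob` of the library.
-/

set_option autoImplicit false

open MeasureTheory Set Filter Topology

namespace Pool.Agent.Results.MP_5ac32f_an.ExceptionalCouplings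

open Pool.Agent.Y271.CO

/-- Let `A` be an operator on a Banach space such that, for some open set `U ⊆ ℂ`, `σ(A) ∩ U` is a null
set and `log⁺ ‖(z - A)⁻¹‖` is integrable on `U`; let `U` meet the Weyl spectrum of `A`, and let this
spectrum have at least two points. Then for every operator `K` of finite rank, `A + κ K` has a
nontrivial closed hyperinvariant subspace for all `κ ∈ ℂ` outside of a set of Hausdorff dimension
zero. -/
theorem result {X : Type} [NormedAddCommGroup X] [NormedSpace ℂ X] [CompleteSpace X]
    (A K : X →L[ℂ] X) (hK : FiniteDimensional ℂ (LinearMap.range (K : X →ₗ[ℂ] X)))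
    {U : Set ℂ} (hU : IsOpen U) (h0 : volume (spectrum ℂ A ∩ U) = 0)
    (hI : IntegrableOn (fun z : ℂ => Real.posLog ‖resolvent A z‖) U)
    (hU1 : (weyl A ∩ U).Nonempty) (hU2 : (weyl A).Nontrivial) :
    dimH {κ : ℂ | ¬ HasHyper (A + κ • K)} = 0 :=
  main_weyl A K hK hU h0 hI hU1 hU2

/-- The case that the spectrum of `A` has at least two accumulation points in `U`. -/
theorem accumulation {X : Type} [NormedAddCommGroup X] [NormedSpace ℂ X] [CompleteSpace X]
    (A K : X →L[ℂ] X) (hK : FiniteDimensional ℂ (LinearMap.range (K : X →ₗ[ℂ] X)))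
    {U : Set ℂ} (hU : IsOpen U) (h0 : volume (spectrum ℂ A ∩ U) = 0)
    (hI : IntegrableOn (fun z : ℂ => Real.posLog ‖resolvent A z‖) U)
    (hacc : (U ∩ {c | AccPt c (𝓟 (spectrum ℂ A))}).Nontrivial) :
    dimH {κ : ℂ | ¬ HasHyper (A + κ • K)} = 0 := by
  obtain ⟨c₁, ⟨h1, h2⟩, c₂, ⟨h3, h4⟩, h5⟩ := hacc
  exact main_weyl A K hK hU h0 hI ⟨c₁, acc_weyl A hU h0 h1 h2, h1⟩
    ⟨c₁, acc_weyl A hU h0 h1 h2, c₂, acc_weyl A hU h0 h3 h4, h5⟩

/-- The case of normal operators `N` on a Hilbert space: if `σ(N)` has upper Minkowski dimension less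
than two, then for every `K` of finite rank and all `κ` outside of a set of Hausdorff dimension zero
`N + κ K` is a scalar or has a nontrivial closed hyperinvariant subspace. -/
theorem normal {H : Type} [NormedAddCommGroup H] [InnerProductSpace ℂ H] [CompleteSpace H]
    (N K : H →L[ℂ] H) (hN : IsStarNormal N) (ht : Thin (spectrum ℂ N))
    (hK : FiniteDimensional ℂ (LinearMap.range (K : H →ₗ[ℂ] H))) :
    dimH {κ : ℂ | ¬ HasHyper (N + κ • K) ∧ ¬ ∃ c : ℂ, N + κ • K = c • (1 : H →L[ℂ] H)} = 0 :=
  Pool.Agent.Y271.CO.normal N K hN ht hK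

end Pool.Agent.Results.MP_5ac32f_an.ExceptionalCouplings
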