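import Pool.Agent.Y283.TO.Main

/-!
Toeplitz operators with Hölder symbols of exponent greater than one half on Banach spaces have
hyperinvariant subspaces.
-/

namespace Pool.Agent.Results.MP_5ac32f_an.ToeplitzHolder

open scoped NNReal

/-- `e`, `ε` is a bounded biorthogonal system of `X` with dense span and total functionals. -/
structure BoundedSystem {X : Type} [NormedAddCommGroup X] [NormedSpace ℂ X] (e : ℕ → X)
    (ε : ℕ → (X →L[ℂ] ℂ)) : Prop where
  biorthogonal : ∀ i j, ε i (e j) = if i = j then 1 else 0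
  bounded : ∃ K : ℝ, ∀ n, ‖e n‖ ≤ K ∧ ‖ε n‖ ≤ K
  dense : Dense (Submodule.span ℂ (Set.range e) : Set X)
  total : ∀ x, (∀ n, ε n x = 0) → x = 0

/-- `T` has the Toeplitz matrix of the symbol `φ`: the entry at `(i, j)` is the Fourier coefficient
of `φ` of index `i - j`. -/
def HasToeplitzMatrix {X : Type} [NormedAddCommGroup X] [NormedSpace ℂ X] (e : ℕ → X)
    (ε : ℕ → (X →L[ℂ] ℂ)) (φ : UnitAddCircle → ℂ) (T : X →L[ℂ] X) : Prop :=
  ∀ i j : ℕ, ε i (T (e j)) = fourierCoeff φ ((i : ℤ) - j)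

/-- `T` has a closed hyperinvariant subspace, different from `0` and from the whole space. -/
def HasHyperinvariant {X : Type} [NormedAddCommGroup X] [NormedSpace ℂ X] (T : X →L[ℂ] X) : Prop :=
  ∃ W : Submodule ℂ X, IsClosed (W : Set X) ∧ W ≠ ⊥ ∧ W ≠ ⊤ ∧
    ∀ Q : X →L[ℂ] X, Q * T = T * Q → ∀ f ∈ W, Q f ∈ W

/-- **Toeplitz operators with Hölder symbols of exponent greater than `1/2` have hyperinvariant
subspaces.** Let `X` be a Banach space with a bounded biorthogonal system `e`, `ε` (dense span, total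
functionals), let `φ` be Hölder continuous with exponent `α > 1/2` on the circle, and let `T` be a
bounded operator on `X` with the Toeplitz matrix of `φ`. Then `T` is a scalar multiple of the
identity or `T` has a closed hyperinvariant subspace other than `0` and `X`. -/
theorem result (X : Type) [NormedAddCommGroup X] [NormedSpace ℂ X] [CompleteSpace X] (e : ℕ → X)
    (ε : ℕ → (X →L[ℂ] ℂ)) (he : BoundedSystem e ε) (φ : UnitAddCircle → ℂ) (C α : ℝ≥0)
    (hα : 1 / 2 < α) (hφ : HolderWith C α φ) (T : X →L[ℂ] X) (hT : HasToeplitzMatrix e ε φ T) :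
    (∃ c : ℂ, T = c • (1 : X →L[ℂ] X)) ∨ HasHyperinvariant T := by
  by_cases hc : ∃ c : ℂ, T = c • (1 : X →L[ℂ] X)
  · exact Or.inl hc
  · right
    push Not at hc
    obtain ⟨K, hK⟩ := he.bounded
    have hα0 : 0 < α := lt_trans (by norm_num) hα
    obtain ⟨L, q, hL, hq, hq2, hHD⟩ := Pool.Agent.Y283.TO.HD_of_holder
      ⟨φ, hφ.continuous hα0⟩ C α hα hφ
    exact Pool.Agent.Y283.TO.toeplitz_hyp e ε K (fun n => (hK n).1) (fun n => (hK n).2)
      he.biorthogonal he.dense he.total ⟨φ, hφ.continuous hα0⟩ L q hL hq hq2 hHD T hT hc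

end Pool.Agent.Results.MP_5ac32f_an.ToeplitzHolder
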