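import Pool.Agent.Y280.HFin

/-!
# MP_5ac32f_an: hyperinvariant subspaces of typical contractions of `ℓ_p`

For `1 < p < ∞` the contractions of `ℓ_p` form a Polish space for the strong* operator topology.
A typical contraction (all contractions outside a meager set) has nontrivial closed hyperinvariant
subspaces, and these even come arbitrarily close to every vector. For `p > 2` the same holds for the
strong operator topology.

Proof. For vectors `x` and functionals `y` let `ρ(T; x, y)` be the norm of the functional
`S ↦ y (S x)` on the commutant of `T`. It is at most `‖y‖ ‖x‖`, and it is upper semicontinuous in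
`T` at all operators with finite matrices. Suppose that `T` has a finite matrix `A`, which may be
assumed to be diagonalisable. By the Hahn-Banach theorem there are `u_i`, `v_i` in the block with
`y (S x) = ∑ i, v_i (S u_i)` for all `S` in the commutant of `A`, and
`∑ i, ‖u_i‖ ^ p ≤ ρ`, `∑ i, ‖v_i‖ ^ q ≤ ρ`. Add to `T` copies of `A` on blocks `1, …, m + 1` far
away, and couple them by a shift `J` with weights `δ` (small) for the first `m` steps and `w` (fixed)
for the last one. Add `u_i` to `x` and `-v_i` to `y` on the `i`-th copy. The new operator is
`A ⊗ 1 + 1 ⊗ J`; since `A` is diagonalisable, the blocks of each `S` in its commutant commute with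
`A` and form a Toeplitz matrix, and the last step `w` forces the norms of the blocks off the diagonal
to be at most `δ / w`. Hence `ρ` is almost `0` for the new operator and the new pair, which is within
`(2 ρ) ^ (1/p)`, resp. `(2 ρ) ^ (1/q)`, of the old one. A Baire category argument then gives for
typical `T` a pair `x`, `y` with `y ≠ 0`, `x` close to any given vector, and `y (S x) = 0` for all
`S` in the commutant of `T`.
-/

set_option autoImplicit false
open TopologicalSpace Pool.Agent.Y280

namespace Pool.Agent.Results.MP_5ac32f_an.TypicalHyperinvariant

variable {E : Type} [NormedAddCommGroup E] [NormedSpace ℂ E]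

/-- All contractions: the closed unit ball of the bounded operators. -/
def Contr (E : Type) [NormedAddCommGroup E] [NormedSpace ℂ E] : Set (E →L[ℂ] E) :=
  {T | ‖T‖ ≤ 1}

/-- Arbitrarily close to every vector there is a vector which lies in a closed subspace, neither
`{0}` nor the whole space, which is invariant under all bounded operators commuting with `T`. -/
def DenselyHyperinvariant (T : E →L[ℂ] E) : Prop :=
  ∀ (x₀ : E) (ε : ℝ), 0 < ε → ∃ M : Submodule ℂ E, IsClosed (M : Set E) ∧ M ≠ ⊥ ∧ M ≠ ⊤ ∧
    (∀ S : E →L[ℂ] E, S * T = T * S → ∀ v ∈ M, S v ∈ M) ∧ ∃ x ∈ M, ‖x - x₀‖ < ε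

/-- **Typical contractions of `ℓ_p`, `1 < p < ∞`, have nontrivial closed hyperinvariant subspaces**
for the strong* operator topology, and, if `p > 2`, also for the strong operator topology. The
spaces of contractions are completely metrizable. -/
theorem result (p : ℝ) (hp : 1 < p) (c : E →ₗ[ℂ] (ℕ → ℂ)) (hc : IsEllp p c)
    (t : TopologicalSpace (Contr E)) (ht : t = SOTStar (Contr E) ∨ (t = SOT (Contr E) ∧ 2 < p)) :
    (Contr E).Nonempty ∧ @IsCompletelyMetrizableSpace _ t ∧ @BaireSpace _ t ∧
      {T : Contr E | DenselyHyperinvariant (T : E →L[ℂ] E)} ∈ @residual _ t :=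
  result_hyp p hp c hc _ rfl t ht

end Pool.Agent.Results.MP_5ac32f_an.TypicalHyperinvariant
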